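import Pool.Agent.helper47.SAlphaG

set_option autoImplicit false

/-!
# Bounded spread of the function of Erdős and Heilbronn's triangle problem

For a convex figure `F` of area `1` let `H n F` be its `n`-th Heilbronn number: the least `β` such
that among any `n` points of `F` some three are the vertices of a triangle of area at most `β`.
Let `m α` and `M α` be the least and the greatest value of the function `S α` of Erdős. For every
`N ≥ 3` and every figure `F` of area `1` there is an `α` in `[1 / (128 N²), 1)` with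
`N * H N F ^ (2 / 3) ≤ 10 ^ 4 * (M α - m α)`. So if the differences `M α - m α` are bounded, then
`H N F = O(N ^ (-3 / 2))` for all convex figures, far beyond the known upper bounds.

The reason: the convex hull of `n` points of a segment of the parabola, all whose triangles have
area more than `η`, misses an area of at least a constant times `η ^ (2 / 3)` near the arc.
-/

open Set MeasureTheory Pool.Agent.helper47.SAlpha

namespace Pool.Agent.Results.MP_78c590_co.BoundedSpread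

/-- The value of the function of Erdős: the least positive integer `n` such that among any `n`
points of `F` some three are the vertices of a triangle of area at most `α`. -/
noncomputable def S (α : ℝ) (F : Set Plane) : ℕ := sInf {n : ℕ | 0 < n ∧ Forced n F α}

/-- The set of all the values `S α F`, where `F` runs over the convex figures of area `1`. -/
def values (α : ℝ) : Set ℕ := {k | ∃ F : Set Plane, IsFigure F ∧ volume F = 1 ∧ S α F = k}

/-- The smallest value. -/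
noncomputable def m (α : ℝ) : ℕ := sInf (values α)

/-- The largest value. -/
noncomputable def M (α : ℝ) : ℕ := sSup (values α)

/-- The `n`-th Heilbronn number of `F`: the infimum of the `β ≥ 0` such that among any `n` points
of `F` some three are the vertices of a triangle of area at most `β`. -/
noncomputable def H (n : ℕ) (F : Set Plane) : ℝ := sInf {β : ℝ | 0 ≤ β ∧ Forced n F β}

/-! ### Basic facts -/

lemma Forced.pos {n : ℕ} {F : Set Plane} {α : ℝ} (h : Forced n F α) : 0 < n := by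
  rcases Nat.eq_zero_or_pos n with h0 | h0
  · subst h0
    obtain ⟨a, ha, _⟩ := h ∅ (by simp) rfl
    simp at ha
  · exact h0

lemma exists_N {α : ℝ} (hα : 0 < α) : ∃ N : ℕ, 1 < N * α := by
  obtain ⟨N, hN⟩ := exists_nat_gt (1 / α)
  exact ⟨N, by rwa [div_lt_iff₀ hα] at hN⟩

lemma S_mem {α : ℝ} (hα : 0 < α) {F : Set Plane} (hF : IsFigure F) (hv : volume F = 1) :
    Forced (S α F) F α := by
  obtain ⟨N, hN⟩ := exists_N hα
  have h := forced_of_large hF hv hN
  exact (Nat.sInf_mem (s := {n : ℕ | 0 < n ∧ Forced n F α}) ⟨3 * N, Forced.pos h, h⟩).2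

lemma S_le {α : ℝ} {F : Set Plane} {n : ℕ} (h : Forced n F α) : S α F ≤ n :=
  Nat.sInf_le ⟨Forced.pos h, h⟩

lemma values_le {α : ℝ} {N : ℕ} (hN : 1 < N * α) : ∀ k ∈ values α, k ≤ 3 * N := by
  rintro k ⟨F, hF, hv, rfl⟩
  exact S_le (forced_of_large hF hv hN)

lemma M_le {α : ℝ} {N : ℕ} (hN : 1 < N * α) : M α ≤ 3 * N :=
  csSup_le' (fun k hk => values_le hN k hk)

lemma m_le {α : ℝ} {F : Set Plane} (hF : IsFigure F) (hv : volume F = 1) : m α ≤ S α F :=
  Nat.sInf_le ⟨F, hF, hv, rfl⟩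

lemma le_M {α : ℝ} (hα : 0 < α) {F : Set Plane} (hF : IsFigure F) (hv : volume F = 1) :
    S α F ≤ M α := by
  obtain ⟨N, hN⟩ := exists_N hα
  exact le_csSup ⟨3 * N, values_le hN⟩ ⟨F, hF, hv, rfl⟩

lemma forced_one {F : Set Plane} (hF : IsFigure F) (hv : volume F = 1) {n : ℕ} (hn : 3 ≤ n) :
    Forced n F 1 := by
  intro s hs hc
  obtain ⟨a, ha, b, hb, c, hc', hab, hac, hbc⟩ := Finset.two_lt_card.1 (show 2 < s.card by omega)
  refine ⟨a, ha, b, hb, c, hc', hab, hac, hbc, ?_⟩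
  have h1 := volume_triangle a b c
  have h2 : convexHull ℝ ({a, b, c} : Set Plane) ⊆ F := by
    apply convexHull_min _ hF.convex
    rintro x (rfl | rfl | rfl)
    · exact hs ha
    · exact hs hb
    · exact hs hc'
  have h3 := h1.trans (measure_mono h2)
  rw [hv, ENNReal.ofReal_le_one] at h3
  exact h3

lemma H_le {n : ℕ} {F : Set Plane} {β : ℝ} (h0 : 0 ≤ β) (h : Forced n F β) : H n F ≤ β :=
  csInf_le ⟨0, fun _ hx => hx.1⟩ ⟨h0, h⟩

lemma H_le_one {F : Set Plane} (hF : IsFigure F) (hv : volume F = 1) {n : ℕ} (hn : 3 ≤ n) :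
    H n F ≤ 1 := H_le zero_le_one (forced_one hF hv hn)

lemma le_H {F : Set Plane} (hF : IsFigure F) (hv : volume F = 1) {n : ℕ} (hn : 3 ≤ n) :
    1 / (128 * (n : ℝ) ^ 2) ≤ H n F := by
  refine le_csInf (s := {β : ℝ | 0 ≤ β ∧ Forced n F β}) ⟨1, zero_le_one, forced_one hF hv hn⟩ ?_
  rintro β ⟨_, hβ⟩
  by_contra h
  push Not at h
  exact not_forced_of_lt hF hv (by omega) h hβ

lemma H_pos {F : Set Plane} (hF : IsFigure F) (hv : volume F = 1) {n : ℕ} (hn : 3 ≤ n) :
    0 < H n F :=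
  lt_of_lt_of_le (by positivity) (le_H hF hv hn)

lemma forced_of_H_lt {F : Set Plane} (hF : IsFigure F) (hv : volume F = 1) {n : ℕ} (hn : 3 ≤ n)
    {β : ℝ} (h : H n F < β) : Forced n F β := by
  obtain ⟨β', ⟨_, h1⟩, h2⟩ := exists_lt_of_csInf_lt
    (s := {β : ℝ | 0 ≤ β ∧ Forced n F β}) ⟨1, zero_le_one, forced_one hF hv hn⟩ h
  exact h1.mono_β h2.le

/-! ### The inequality between the Heilbronn numbers -/

lemma H_add_le {N K : ℕ} (hK : ∀ α : ℝ, 1 / (128 * (N : ℝ) ^ 2) ≤ α → α < 1 → M α ≤ m α + K)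
    {F G : Set Plane} (hF : IsFigure F) (hFv : volume F = 1) (hG : IsFigure G)
    (hGv : volume G = 1) {n : ℕ} (hn : 3 ≤ n) (hnN : n ≤ N) : H (n + K) F ≤ H n G := by
  rcases le_or_gt 1 (H n G) with h1 | h1
  · exact (H_le_one hF hFv (by omega)).trans h1
  · have key : ∀ α : ℝ, H n G < α → α < 1 → H (n + K) F ≤ α := by
      intro α h2 h3
      have hα : 0 < α := (H_pos hG hGv hn).trans h2
      have h4 : 1 / (128 * (N : ℝ) ^ 2) ≤ α := by
        refine le_trans ?_ ((le_H hG hGv hn).trans h2.le)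
        have h5 : (0 : ℝ) < n := by exact_mod_cast (show 0 < n by omega)
        have h6 : (n : ℝ) ≤ N := by exact_mod_cast hnN
        gcongr
      have h7 : m α ≤ n := (m_le hG hGv).trans (S_le (forced_of_H_lt hG hGv hn h2))
      have h8 : S α F ≤ n + K := (le_M hα hF hFv).trans ((hK α h4 h3).trans (by omega))
      exact H_le hα.le ((S_mem hα hF hFv).mono_n h8)
    by_contra h
    push Not at h
    obtain ⟨α, h2, h3⟩ := exists_between (lt_min h h1)
    have h4 := key α h2 (h3.trans_le (min_le_right _ _))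
    exact absurd h4 (not_le.2 (h3.trans_le (min_le_left _ _)))

/-! ### Cube roots -/

/-- The cube root. -/
noncomputable def cr (x : ℝ) : ℝ := x ^ ((1 : ℝ) / 3)

lemma cr_pow {x : ℝ} (hx : 0 ≤ x) : cr x ^ 3 = x := by
  unfold cr
  rw [← Real.rpow_natCast, ← Real.rpow_mul hx]
  norm_num

lemma cr_pos {x : ℝ} (hx : 0 < x) : 0 < cr x := Real.rpow_pos_of_pos hx _

lemma cr_le_one {x : ℝ} (hx : 0 ≤ x) (hx1 : x ≤ 1) : cr x ≤ 1 :=
  Real.rpow_le_one hx hx1 (by norm_num)

lemma cr_mono {x y : ℝ} (hx : 0 ≤ x) (hxy : x ≤ y) : cr x ≤ cr y :=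
  Real.rpow_le_rpow hx hxy (by norm_num)

lemma rpow_two_thirds {x : ℝ} (hx : 0 ≤ x) : x ^ ((2 : ℝ) / 3) = cr x ^ 2 := by
  unfold cr
  rw [← Real.rpow_natCast, ← Real.rpow_mul hx]
  norm_num

/-- The step of the recursion. -/
lemma step {x y : ℝ} (hx : 0 < x) (hy : 0 < y) (hy1 : y ≤ 1)
    (h : y ^ 3 * (1 + y ^ 2 / 2400) ≤ x ^ 3) : 1 / x ^ 2 + 1 / 9600 ≤ 1 / y ^ 2 := by
  set s : ℝ := y ^ 2 / 2400 with hs
  have hy2 : y ^ 2 ≤ 1 := pow_le_one₀ hy.le hy1
  have hs0 : 0 < s := by positivity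
  have hs1 : s ≤ 1 := by rw [hs]; linarith
  have h1 : (y ^ 2 * (1 + s / 2)) ^ 3 ≤ (x ^ 2) ^ 3 := by
    have h2 : (y ^ 3 * (1 + s)) ^ 2 ≤ (x ^ 3) ^ 2 := pow_le_pow_left₀ (by positivity) h 2
    have h3 : (1 + s / 2) ^ 3 ≤ (1 + s) ^ 2 := by
      have h4 : s ^ 3 ≤ s := by
        calc s ^ 3 ≤ s ^ 1 := pow_le_pow_of_le_one hs0.le hs1 (by norm_num)
          _ = s := pow_one s
      nlinarith [sq_nonneg s]
    calc (y ^ 2 * (1 + s / 2)) ^ 3 = (y ^ 3) ^ 2 * (1 + s / 2) ^ 3 := by ring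
      _ ≤ (y ^ 3) ^ 2 * (1 + s) ^ 2 := mul_le_mul_of_nonneg_left h3 (by positivity)
      _ = (y ^ 3 * (1 + s)) ^ 2 := by ring
      _ ≤ (x ^ 3) ^ 2 := h2
      _ = (x ^ 2) ^ 3 := by ring
  have h2 : y ^ 2 * (1 + s / 2) ≤ x ^ 2 := le_of_pow_le_pow_left₀ (by norm_num) (by positivity) h1
  have h3 : 1 / x ^ 2 ≤ 1 / (y ^ 2 * (1 + s / 2)) := one_div_le_one_div_of_le (by positivity) h2
  have h4 : 1 / (y ^ 2 * (1 + s / 2)) ≤ (1 - s / 4) / y ^ 2 := by
    rw [div_le_div_iff₀ (by positivity) (by positivity)]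
    have h5 : 1 ≤ (1 - s / 4) * (1 + s / 2) := by nlinarith
    nlinarith [mul_le_mul_of_nonneg_left h5 (sq_nonneg y)]
  have h5 : (1 - s / 4) / y ^ 2 = 1 / y ^ 2 - 1 / 9600 := by
    rw [hs]; field_simp; ring
  linarith

/-! ### Figures with larger Heilbronn numbers -/

lemma area_of_unit {F : Set Plane} (h : volume F = 1) : area F = 1 := by
  simp [area, h]

/-- Normalisation of the area. -/
lemma exists_unit {F : Set Plane} (h : IsFigure F) :
    ∃ F' : Set Plane, IsFigure F' ∧ volume F' = 1 ∧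
      ∀ (n : ℕ) (β : ℝ), (Forced n F' β ↔ Forced n F (β * area F)) := by
  have hpos := area_pos h
  set r := (Real.sqrt (area F))⁻¹ with hr
  have hr0 : r ≠ 0 := inv_ne_zero (Real.sqrt_pos.2 hpos).ne'
  have hr2 : r ^ 2 = (area F)⁻¹ := by
    rw [hr, inv_pow, Real.sq_sqrt hpos.le]
  have hfig := h.sim 0 hr0
  refine ⟨sim 0 r '' F, hfig, ?_, ?_⟩
  · have h1 : area (sim 0 r '' F) = 1 := by
      rw [area_sim, hr2, inv_mul_cancel₀ hpos.ne']
    have h2 := hfig.compact.measure_lt_top (μ := volume)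
    rw [← ENNReal.ofReal_toReal h2.ne]
    change ENNReal.ofReal (area (sim 0 r '' F)) = 1
    rw [h1, ENNReal.ofReal_one]
  · intro n β
    rw [← forced_sim_iff (n := n) (F := F) (β := β * area F) 0 hr0]
    have h3 : r ^ 2 * (β * area F) = β := by
      rw [hr2]; field_simp
    rw [h3]

lemma H_anti {F : Set Plane} (hF : IsFigure F) (hv : volume F = 1) {n k : ℕ} (hn : 3 ≤ n)
    (hnk : n ≤ k) : H k F ≤ H n F := by
  refine le_csInf (s := {β : ℝ | 0 ≤ β ∧ Forced n F β}) ⟨1, zero_le_one, forced_one hF hv hn⟩ ?_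
  rintro β ⟨h0, hβ⟩
  exact H_le h0 (hβ.mono_n hnk)

/-- The convex hull of a finite set with a triangle of positive area is a figure. -/
lemma isFigure_hull {P : Finset Plane} {a b c : Plane} (ha : a ∈ P) (hb : b ∈ P) (hc : c ∈ P)
    (h : 0 < triArea a b c) : IsFigure (convexHull ℝ (P : Set Plane)) := by
  have hcv : Convex ℝ (convexHull ℝ (P : Set Plane)) := convex_convexHull ℝ _
  have hcp : IsCompact (convexHull ℝ (P : Set Plane)) :=
    (Finset.finite_toSet P).isCompact_convexHull ℝ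
  refine ⟨hcv, hcp, ?_⟩
  by_contra hint
  rw [not_nonempty_iff_eq_empty] at hint
  have h1 : volume (convexHull ℝ (P : Set Plane)) = 0 := by
    have h2 : convexHull ℝ (P : Set Plane) ⊆ frontier (convexHull ℝ (P : Set Plane)) := by
      intro x hx
      rw [frontier, hint, sdiff_empty]
      exact subset_closure hx
    exact measure_mono_null h2 (hcv.addHaar_frontier volume)
  have h2 := volume_triangle a b c
  have h3 : convexHull ℝ ({a, b, c} : Set Plane) ⊆ convexHull ℝ (P : Set Plane) := by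
    apply convexHull_mono
    rintro x (rfl | rfl | rfl)
    · exact ha
    · exact hb
    · exact hc
  have h4 := h2.trans (measure_mono h3)
  rw [h1] at h4
  have h5 : triArea a b c ≤ 0 := ENNReal.ofReal_eq_zero.1 (nonpos_iff_eq_zero.1 h4)
  linarith

/-- For a segment of the parabola of area `1` some other figure has a Heilbronn number which is
larger by a factor of `1 + H ^ (2 / 3) / 2400`. -/
lemma gap {n : ℕ} (hn : 3 ≤ n) {G : Set Plane} (hG : IsFigure G) (hv : volume G = 1)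
    (hGP : ∀ (n : ℕ) (β : ℝ), (Forced n G β ↔ Forced n Par (β * area Par))) :
    ∃ F' : Set Plane, IsFigure F' ∧ volume F' = 1 ∧
      H n G * (1 + cr (H n G) ^ 2 / 2400) ≤ H n F' := by
  classical
  set a := H n G with ha
  have ha0 : 0 < a := H_pos hG hv hn
  have ha1 : a ≤ 1 := H_le_one hG hv hn
  set y := cr a with hy
  have hy0 : 0 < y := cr_pos ha0
  have hy1 : y ≤ 1 := cr_le_one ha0.le ha1
  have hy3 : y ^ 3 = a := cr_pow ha0.le
  set A := area Par with hA
  have hA1 : 1 ≤ A := one_le_area_par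
  have hA2 : A ≤ 2 := area_par_le
  set g : ℕ := ⌈(1.31 : ℝ) / y⌉₊ with hg
  have hg1 : 1.31 / y ≤ g := Nat.le_ceil _
  have hgpos : (0 : ℝ) < g := lt_of_lt_of_le (by positivity) hg1
  have hg0 : 0 < g := Nat.cast_pos.1 hgpos
  have hg2 : (g : ℝ) ≤ 2.31 / y := by
    have h1 : (g : ℝ) < 1.31 / y + 1 := Nat.ceil_lt_add_one (by positivity)
    have h2 : 1 ≤ 1 / y := by rw [le_div_iff₀ hy0]; linarith
    have h3 : (1.31 : ℝ) / y + 1 / y = 2.31 / y := by rw [← add_div]; norm_num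
    linarith
  have hg3 : 10 / 9 ≤ (g : ℝ) ^ 3 * (a / 2 * A) := by
    have h1 : (1.31 / y) ^ 3 ≤ (g : ℝ) ^ 3 := pow_le_pow_left₀ (by positivity) hg1 3
    have h2 : (1.31 / y) ^ 3 * a = 1.31 ^ 3 := by rw [← hy3]; field_simp
    have h3 : (1.31 / y) ^ 3 * a ≤ (g : ℝ) ^ 3 * a := mul_le_mul_of_nonneg_right h1 ha0.le
    rw [h2] at h3
    have h4 : (g : ℝ) ^ 3 * a * 1 ≤ (g : ℝ) ^ 3 * a * A :=
      mul_le_mul_of_nonneg_left hA1 (by positivity)
    norm_num at h3
    linarith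
  set s : ℝ := 1 / (108 * (g : ℝ) ^ 2) / A with hs
  have hs0 : 0 < s := by positivity
  set t : ℝ := a * (1 + s / 2) / (1 + s) with ht
  have hts : t * (1 + s) = a * (1 + s / 2) := by rw [ht]; field_simp
  have hta : t < a := by
    rw [ht, div_lt_iff₀ (by positivity)]
    nlinarith
  have hta2 : a / 2 ≤ t := by
    rw [ht, le_div_iff₀ (by positivity)]
    nlinarith
  have ht0 : 0 < t := by linarith
  have hnf : ¬ Forced n G t := fun h => absurd (H_le ht0.le h) (not_le.2 hta)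
  rw [hGP] at hnf
  simp only [Forced, not_forall, not_exists, not_and, not_le] at hnf
  obtain ⟨P, hPPar, hPc, hPT⟩ := hnf
  have hη : 10 / 9 ≤ (g : ℝ) ^ 3 * (t * A) := by
    refine hg3.trans (mul_le_mul_of_nonneg_left ?_ (by positivity))
    exact mul_le_mul_of_nonneg_right hta2 (by linarith)
  have hloss := hull_loss hPPar hg0 hη (fun a ha b hb c hc h1 h2 h3 => hPT a ha b hb c hc h1 h2 h3)
  obtain ⟨p, hp, q, hq, r, hr, hpq, hpr, hqr⟩ :=
    Finset.two_lt_card.1 (show 2 < P.card by omega)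
  have hpos : 0 < triArea p q r := lt_trans (by positivity) (hPT p hp q hq r hr hpq hpr hqr)
  have hQ : IsFigure (convexHull ℝ (P : Set Plane)) := isFigure_hull hp hq hr hpos
  obtain ⟨F', hF', hv', hFQ⟩ := exists_unit hQ
  refine ⟨F', hF', hv', ?_⟩
  set Q := convexHull ℝ (P : Set Plane) with hQdef
  have hQpos := area_pos hQ
  have hnQ : ¬ Forced n Q (t * A) := by
    intro h
    obtain ⟨a, ha, b, hb, c, hc, h1, h2, h3, h4⟩ := h P (subset_convexHull ℝ _) hPc
    exact absurd h4 (not_le.2 (hPT a ha b hb c hc h1 h2 h3))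
  have hQA : area Q ≤ A * (1 - s) := by
    have h1 : A * s = 1 / (108 * (g : ℝ) ^ 2) := by rw [hs]; field_simp
    have h2 : A * (1 - s) = A - A * s := by ring
    rw [h2, h1]
    linarith
  have hy2s : y ^ 2 / 2400 ≤ s / 2 := by
    have h1 : (g : ℝ) * y ≤ 2.31 := by rwa [← le_div_iff₀ hy0]
    have h2 : ((g : ℝ) * y) ^ 2 ≤ 2.31 ^ 2 := pow_le_pow_left₀ (by positivity) h1 2
    rw [hs, div_div, div_div, div_le_div_iff₀ (by norm_num) (by positivity)]
    have h3 : y ^ 2 * (108 * (g : ℝ) ^ 2 * (A * 2)) = 216 * ((g : ℝ) * y) ^ 2 * A := by ring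
    rw [h3]
    have h4 : 216 * ((g : ℝ) * y) ^ 2 * A ≤ 216 * 2.31 ^ 2 * 2 :=
      mul_le_mul (by linarith) hA2 (by linarith) (by positivity)
    norm_num at h4 ⊢
    linarith
  have hmain : a * (1 + s / 2) ≤ t * A / area Q := by
    rw [le_div_iff₀ hQpos, ← hts]
    have h1 : t * (1 + s) * area Q ≤ t * (1 + s) * (A * (1 - s)) :=
      mul_le_mul_of_nonneg_left hQA (by positivity)
    have h2 : t * (1 + s) * (A * (1 - s)) = t * A - t * A * s ^ 2 := by ring
    have h3 : 0 ≤ t * A * s ^ 2 := by positivity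
    linarith
  have hH : t * A / area Q ≤ H n F' := by
    refine le_csInf (s := {β : ℝ | 0 ≤ β ∧ Forced n F' β})
      ⟨1, zero_le_one, forced_one hF' hv' hn⟩ ?_
    rintro β ⟨_, hβ⟩
    rw [hFQ] at hβ
    rw [div_le_iff₀ hQpos]
    by_contra hcon
    push Not at hcon
    exact hnQ (hβ.mono_β hcon.le)
  calc a * (1 + y ^ 2 / 2400) ≤ a * (1 + s / 2) :=
        mul_le_mul_of_nonneg_left (by linarith) ha0.le
    _ ≤ _ := hmain
    _ ≤ _ := hH

/-- The bound for the Heilbronn numbers when the spread is at most `K`. -/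
lemma bound {N K : ℕ} (hN : 3 ≤ N)
    (hK : ∀ α : ℝ, 1 / (128 * (N : ℝ) ^ 2) ≤ α → α < 1 → M α ≤ m α + K)
    {F : Set Plane} (hF : IsFigure F) (hFv : volume F = 1) :
    (N : ℝ) * cr (H N F) ^ 2 ≤ 10 ^ 4 * K := by
  obtain ⟨G, hG, hGv, hGP⟩ := exists_unit isFigure_par
  have hy0 : ∀ n, 3 ≤ n → 0 < cr (H n G) := fun n hn => cr_pos (H_pos hG hGv hn)
  have hy1 : ∀ n, 3 ≤ n → cr (H n G) ≤ 1 :=
    fun n hn => cr_le_one (H_pos hG hGv hn).le (H_le_one hG hGv hn)
  -- the recursion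
  have hrec : ∀ n, 3 ≤ n → n ≤ N →
      H (n + K) G * (1 + cr (H (n + K) G) ^ 2 / 2400) ≤ H n G := by
    intro n hn hnN
    obtain ⟨F', hF', hv', h1⟩ := gap (n := n + K) (by omega) hG hGv hGP
    exact h1.trans (H_add_le hK hF' hv' hG hGv hn hnN)
  have hK1 : 1 ≤ K := by
    by_contra hcon
    have hK0 : K = 0 := by omega
    have h1 := hrec 3 le_rfl hN
    rw [hK0, add_zero] at h1
    have h2 := H_pos hG hGv (le_refl 3)
    have h3 := hy0 3 le_rfl
    have h4 : 0 < H 3 G * (cr (H 3 G) ^ 2 / 2400) := by positivity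
    linarith
  have hind : ∀ j : ℕ, 3 + j * K ≤ N + K → (j : ℝ) / 9600 ≤ 1 / cr (H (3 + j * K) G) ^ 2 := by
    intro j
    induction j with
    | zero =>
      intro _
      have := hy0 3 le_rfl
      simp only [CharP.cast_eq_zero, zero_div, zero_mul, add_zero]
      positivity
    | succ j ih =>
      intro hj
      have h1 : 3 + j * K ≤ N := by rw [Nat.succ_mul] at hj; omega
      have h2 := ih (by omega)
      have h3 := hrec (3 + j * K) (by omega) h1
      have e : 3 + j * K + K = 3 + (j + 1) * K := by ring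
      rw [e] at h3
      have h4 : cr (H (3 + (j + 1) * K) G) ^ 3 * (1 + cr (H (3 + (j + 1) * K) G) ^ 2 / 2400) ≤
          cr (H (3 + j * K) G) ^ 3 := by
        rw [cr_pow (H_pos hG hGv (by omega)).le, cr_pow (H_pos hG hGv (by omega)).le]
        exact h3
      have h5 := step (hy0 _ (by omega)) (hy0 _ (by omega)) (hy1 _ (by omega)) h4
      push_cast
      have h6 : ((j : ℝ) + 1) / 9600 = (j : ℝ) / 9600 + 1 / 9600 := by ring
      rw [h6]
      linarith
  -- conclusion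
  have hHF := H_pos hF hFv hN
  have hyF0 : 0 < cr (H N F) := cr_pos hHF
  have hyF1 : cr (H N F) ≤ 1 := cr_le_one hHF.le (H_le_one hF hFv hN)
  have hyF2 : cr (H N F) ^ 2 ≤ 1 := pow_le_one₀ hyF0.le hyF1
  have hKr : (1 : ℝ) ≤ K := by exact_mod_cast hK1
  set q : ℕ := (N - 3) / K with hq
  have hq1 : q * K ≤ N - 3 := Nat.div_mul_le_self _ _
  have hq2 : N - 3 < (q + 1) * K := by
    rw [hq, Nat.add_mul, one_mul]
    exact Nat.lt_div_mul_add hK1
  have hNq : (N : ℝ) ≤ 3 + (q + 1) * K := by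
    have : N ≤ 3 + (q + 1) * K := by omega
    exact_mod_cast this
  rcases Nat.eq_zero_or_pos q with h0 | h0
  · rw [h0] at hNq
    have h1 : (N : ℝ) * cr (H N F) ^ 2 ≤ N * 1 :=
      mul_le_mul_of_nonneg_left hyF2 (Nat.cast_nonneg _)
    push_cast at hNq
    linarith
  · obtain ⟨p, hp⟩ : ∃ p, q = p + 1 := ⟨q - 1, by omega⟩
    have hpN : 3 + p * K + K ≤ N := by
      rw [hp, Nat.succ_mul] at hq1; omega
    have h1 := hind p (by omega)
    have h2 : H N F ≤ H (3 + p * K) G :=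
      (H_anti hF hFv (by omega) hpN).trans
        (H_add_le hK hF hFv hG hGv (by omega) (by omega))
    have h3 : cr (H N F) ≤ cr (H (3 + p * K) G) := cr_mono hHF.le h2
    have h4 : cr (H N F) ^ 2 ≤ cr (H (3 + p * K) G) ^ 2 := pow_le_pow_left₀ hyF0.le h3 2
    have h5 : (p : ℝ) * cr (H N F) ^ 2 ≤ 9600 := by
      have h6 := hy0 (3 + p * K) (by omega)
      rw [div_le_div_iff₀ (by norm_num) (by positivity)] at h1
      have h7 : (p : ℝ) * cr (H N F) ^ 2 ≤ p * cr (H (3 + p * K) G) ^ 2 :=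
        mul_le_mul_of_nonneg_left h4 (Nat.cast_nonneg _)
      linarith
    have h6 : (q : ℝ) = p + 1 := by rw [hp]; push_cast; ring
    have h7 : (N : ℝ) * cr (H N F) ^ 2 ≤ (3 + (q + 1) * K) * cr (H N F) ^ 2 :=
      mul_le_mul_of_nonneg_right hNq (by positivity)
    have h8 : (3 + ((q : ℝ) + 1) * K) * cr (H N F) ^ 2 =
        (3 + 2 * K) * cr (H N F) ^ 2 + K * (p * cr (H N F) ^ 2) := by rw [h6]; ring
    have h9 : (3 + 2 * (K : ℝ)) * cr (H N F) ^ 2 ≤ (3 + 2 * K) * 1 :=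
      mul_le_mul_of_nonneg_left hyF2 (by positivity)
    have h10 : (K : ℝ) * (p * cr (H N F) ^ 2) ≤ K * 9600 :=
      mul_le_mul_of_nonneg_left h5 (Nat.cast_nonneg _)
    linarith

/-- **Bounded spread and Heilbronn's problem.** (1) There is a convex figure `G` of area `1` such
that for every `n ≥ 3` some convex figure `F` of area `1` has a Heilbronn number `H n F` which is at
least `(1 + H n G ^ (2 / 3) / 2400) * H n G`. (2) For every `N ≥ 3` and every convex figure `F` of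
area `1` there is an `α` in `[1 / (128 N²), 1)` with `N * H N F ^ (2 / 3) ≤ 10 ^ 4 (M α - m α)`.
(3) If `M α - m α ≤ K` for all `α` in `(0, 1)`, then `H N F ≤ 10 ^ 6 (K / N) ^ (3 / 2)` for all
`N ≥ 3` and all convex figures `F` of area `1`. -/
theorem result :
    (∃ G : Set Plane, IsFigure G ∧ volume G = 1 ∧ ∀ n : ℕ, 3 ≤ n →
      1 / (128 * (n : ℝ) ^ 2) ≤ H n G ∧ ∃ F : Set Plane, IsFigure F ∧ volume F = 1 ∧
        (1 + H n G ^ ((2 : ℝ) / 3) / 2400) * H n G ≤ H n F) ∧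
    (∀ N : ℕ, 3 ≤ N → ∀ F : Set Plane, IsFigure F → volume F = 1 →
      ∃ α : ℝ, 1 / (128 * (N : ℝ) ^ 2) ≤ α ∧ α < 1 ∧
        IsLeast (values α) (m α) ∧ IsGreatest (values α) (M α) ∧
        (N : ℝ) * H N F ^ ((2 : ℝ) / 3) ≤ 10 ^ 4 * ((M α : ℝ) - m α)) ∧
    ∀ K : ℕ, (∀ α : ℝ, 0 < α → α < 1 → M α ≤ m α + K) →
      ∀ N : ℕ, 3 ≤ N → ∀ F : Set Plane, IsFigure F → volume F = 1 →
        H N F ≤ 10 ^ 6 * ((K : ℝ) / N) ^ ((3 : ℝ) / 2) := by
  refine ⟨?_, ?_, ?_⟩
  · obtain ⟨G, hG, hGv, hGP⟩ := exists_unit isFigure_par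
    refine ⟨G, hG, hGv, fun n hn => ⟨le_H hG hGv hn, ?_⟩⟩
    obtain ⟨F, hF, hFv, h⟩ := gap hn hG hGv hGP
    refine ⟨F, hF, hFv, ?_⟩
    rw [rpow_two_thirds (H_pos hG hGv hn).le, mul_comm]
    exact h
  · intro N hN F hF hFv
    have hN' : (0 : ℝ) < N := by exact_mod_cast (show 0 < N by omega)
    set α₀ : ℝ := 1 / (128 * (N : ℝ) ^ 2) with hα₀
    have hα₀pos : 0 < α₀ := by positivity
    have hα₀lt : α₀ < 1 := by
      rw [hα₀, div_lt_one (by positivity)]
      have h1 : (1 : ℝ) ≤ N := by exact_mod_cast (show 1 ≤ N by omega)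
      have h2 : (1 : ℝ) ≤ (N : ℝ) ^ 2 := one_le_pow₀ h1
      linarith
    obtain ⟨L, hL⟩ := exists_N hα₀pos
    -- the largest spread
    set A : Set ℕ := {k | ∃ α : ℝ, α₀ ≤ α ∧ α < 1 ∧ M α - m α = k} with hA
    have hAne : A.Nonempty := ⟨_, α₀, le_rfl, hα₀lt, rfl⟩
    have hAb : BddAbove A := by
      refine ⟨3 * L, ?_⟩
      rintro k ⟨α, h1, _, rfl⟩
      have h2 : 1 < L * α := hL.trans_le (mul_le_mul_of_nonneg_left h1 (Nat.cast_nonneg _))
      exact (Nat.sub_le _ _).trans (M_le h2)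
    obtain ⟨α, hα1, hα2, hαK⟩ := Nat.sSup_mem hAne hAb
    have hαpos : 0 < α := hα₀pos.trans_le hα1
    have hne : (values α).Nonempty := ⟨_, F, hF, hFv, rfl⟩
    obtain ⟨L', hL'⟩ := exists_N hαpos
    have hleast : IsLeast (values α) (m α) := ⟨Nat.sInf_mem hne, fun _ h => Nat.sInf_le h⟩
    have hgreatest : IsGreatest (values α) (M α) :=
      ⟨Nat.sSup_mem hne ⟨3 * L', values_le hL'⟩, fun _ h => le_csSup ⟨3 * L', values_le hL'⟩ h⟩
    refine ⟨α, hα1, hα2, hleast, hgreatest, ?_⟩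
    have hmM : m α ≤ M α := hleast.2 hgreatest.1
    set K : ℕ := M α - m α with hKdef
    have hK : ∀ β : ℝ, α₀ ≤ β → β < 1 → M β ≤ m β + K := by
      intro β h1 h2
      have h3 : M β - m β ≤ K := by
        rw [hαK]
        exact le_csSup hAb ⟨β, h1, h2, rfl⟩
      omega
    have hKr : ((M α : ℝ) - m α) = K := by
      rw [hKdef, Nat.cast_sub hmM]
    rw [hKr, rpow_two_thirds (H_pos hF hFv hN).le]
    exact bound hN hK hF hFv
  · intro K hK N hN F hF hFv
    have hN' : (0 : ℝ) < N := by exact_mod_cast (show 0 < N by omega)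
    have hH := H_pos hF hFv hN
    have h1 := bound hN (K := K) (fun α h1 h2 => hK α (lt_of_lt_of_le (by positivity) h1) h2)
      hF hFv
    have h2 : cr (H N F) ^ 2 ≤ 10 ^ 4 * ((K : ℝ) / N) := by
      rw [mul_div_assoc', le_div_iff₀ hN']
      linarith
    have h3 : (cr (H N F) ^ 2) ^ ((3 : ℝ) / 2) = H N F := by
      have h4 : (cr (H N F) ^ 2) ^ ((3 : ℝ) / 2) = cr (H N F) ^ 3 := by
        rw [← Real.rpow_natCast, ← Real.rpow_natCast, ← Real.rpow_mul (cr_pos hH).le]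
        norm_num
      rw [h4, cr_pow hH.le]
    have h4 : (cr (H N F) ^ 2) ^ ((3 : ℝ) / 2) ≤ (10 ^ 4 * ((K : ℝ) / N)) ^ ((3 : ℝ) / 2) :=
      Real.rpow_le_rpow (by positivity) h2 (by norm_num)
    rw [h3, Real.mul_rpow (by positivity) (by positivity)] at h4
    have h5 : ((10 : ℝ) ^ 4) ^ ((3 : ℝ) / 2) = 10 ^ 6 := by
      rw [← Real.rpow_natCast, ← Real.rpow_natCast, ← Real.rpow_mul (by norm_num)]
      norm_num
    rwa [h5] at h4

end Pool.Agent.Results.MP_78c590_co.BoundedSpread
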