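import Pool.Agent.helper47.SAlphaE

open Set MeasureTheory Pool.Agent.helper47.SAlpha

namespace Pool.Agent.Results.MP_78c590_co.IntermediateValues

/-- The value of the function of Erdős: the least positive integer `n` such that among any `n`
points of `F` some three are the vertices of a triangle of area at most `α`. -/
noncomputable def S (α : ℝ) (F : Set Plane) : ℕ := sInf {n : ℕ | 0 < n ∧ Forced n F α}

/-- The set of all the values `S α F`, where `F` runs over the convex figures of area `1`. -/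
def values (α : ℝ) : Set ℕ := {k | ∃ F : Set Plane, IsFigure F ∧ volume F = 1 ∧ S α F = k}

/-- The smallest value. -/
noncomputable def m (α : ℝ) : ℕ := sInf (values α)

/-- The largest value. -/
noncomputable def M (α : ℝ) : ℕ := sSup (values α)

lemma area_of_unit {F : Set Plane} (h : volume F = 1) : area F = 1 := by
  simp [area, h]

/-- Normalisation of the area. -/
lemma exists_unit {F : Set Plane} (h : IsFigure F) (α : ℝ) :
    ∃ F' : Set Plane, IsFigure F' ∧ volume F' = 1 ∧
      ∀ n, (Forced n F' α ↔ Forced n F (α * area F)) := by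
  have hpos := area_pos h
  set r := (Real.sqrt (area F))⁻¹ with hr
  have hr0 : r ≠ 0 := inv_ne_zero (Real.sqrt_pos.2 hpos).ne'
  have hr2 : r ^ 2 = (area F)⁻¹ := by
    rw [hr, inv_pow, Real.sq_sqrt hpos.le]
  have hfig := h.sim 0 hr0
  refine ⟨sim 0 r '' F, hfig, ?_, ?_⟩
  · have h1 : area (sim 0 r '' F) = 1 := by
      rw [area_sim, hr2, inv_mul_cancel₀ hpos.ne']
    have h2 := hfig.compact.measure_lt_top (μ := volume)
    rw [← ENNReal.ofReal_toReal h2.ne]
    change ENNReal.ofReal (area (sim 0 r '' F)) = 1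
    rw [h1, ENNReal.ofReal_one]
  · intro n
    rw [← forced_sim_iff (n := n) (F := F) (β := α * area F) 0 hr0]
    have h3 : r ^ 2 * (α * area F) = α := by
      rw [hr2]; field_simp
    rw [h3]

lemma exists_figure : ∃ F : Set Plane, IsFigure F := by
  refine ⟨Metric.closedBall 0 1, convex_closedBall 0 1, isCompact_closedBall 0 1, ?_⟩
  rw [interior_closedBall _ one_ne_zero]
  exact ⟨0, by simp⟩

lemma Forced.pos {n : ℕ} {F : Set Plane} {α : ℝ} (h : Forced n F α) : 0 < n := by
  rcases Nat.eq_zero_or_pos n with h0 | h0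
  · subst h0
    obtain ⟨a, ha, _⟩ := h ∅ (by simp) rfl
    simp at ha
  · exact h0

lemma infinite_of_figure {F : Set Plane} (h : IsFigure F) : F.Infinite :=
  (infinite_of_mem_nhds _ (isOpen_interior.mem_nhds h.interior_nonempty.some_mem)).mono
    interior_subset

lemma Forced.three_le {n : ℕ} {F : Set Plane} {α : ℝ} (hF : IsFigure F) (h : Forced n F α) :
    3 ≤ n := by
  obtain ⟨t, htF, htc⟩ := (infinite_of_figure hF).exists_subset_card_eq n
  obtain ⟨a, ha, b, hb, c, hc, hab, hac, hbc, _⟩ := h t htF htc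
  rw [← htc]
  exact Finset.two_lt_card.2 ⟨a, ha, b, hb, c, hc, hab, hac, hbc⟩

lemma exists_N {α : ℝ} (hα : 0 < α) : ∃ N : ℕ, 1 < N * α := by
  obtain ⟨N, hN⟩ := exists_nat_gt (1 / α)
  exact ⟨N, by rwa [div_lt_iff₀ hα] at hN⟩

lemma S_mem {α : ℝ} (hα : 0 < α) {F : Set Plane} (hF : IsFigure F) (hv : volume F = 1) :
    Forced (S α F) F α := by
  obtain ⟨N, hN⟩ := exists_N hα
  have h := forced_of_large hF hv hN
  exact (Nat.sInf_mem (s := {n : ℕ | 0 < n ∧ Forced n F α}) ⟨3 * N, Forced.pos h, h⟩).2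

lemma S_le {α : ℝ} {F : Set Plane} {n : ℕ} (h : Forced n F α) : S α F ≤ n :=
  Nat.sInf_le ⟨Forced.pos h, h⟩

lemma forced_iff {α : ℝ} (hα : 0 < α) {F : Set Plane} (hF : IsFigure F) (hv : volume F = 1)
    (n : ℕ) : Forced n F α ↔ S α F ≤ n :=
  ⟨S_le, fun h => (S_mem hα hF hv).mono_n h⟩

lemma values_nonempty (α : ℝ) : (values α).Nonempty := by
  obtain ⟨F, hF⟩ := exists_figure
  obtain ⟨F', hF', hv, _⟩ := exists_unit hF α
  exact ⟨S α F', F', hF', hv, rfl⟩

lemma values_le {α : ℝ} {N : ℕ} (hN : 1 < N * α) : ∀ k ∈ values α, k ≤ 3 * N := by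
  rintro k ⟨F, hF, hv, rfl⟩
  exact S_le (forced_of_large hF hv hN)

lemma values_bddAbove {α : ℝ} (hα : 0 < α) : BddAbove (values α) := by
  obtain ⟨N, hN⟩ := exists_N hα
  exact ⟨3 * N, values_le hN⟩

lemma isLeast_m (α : ℝ) : IsLeast (values α) (m α) :=
  ⟨Nat.sInf_mem (values_nonempty α), fun _ h => Nat.sInf_le h⟩

lemma isGreatest_M {α : ℝ} (hα : 0 < α) : IsGreatest (values α) (M α) :=
  ⟨Nat.sSup_mem (values_nonempty α) (values_bddAbove hα),
    fun _ h => le_csSup (values_bddAbove hα) h⟩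

/-- The interpolation theorem for figures of area one. -/
lemma attained {α β : ℝ} (hα : 0 < α) {n : ℕ} (hn : 2 ≤ n) {F G : Set Plane}
    (hF : IsFigure F) (hG : IsFigure G) (hGv : volume G = 1)
    (h1 : Forced (n + 1) F β) (hβ : β < α * area F) (h2 : ¬ Forced n G α) :
    n + 1 ∈ values α := by
  have h2' : ¬ Forced n G (α * area G) := by rwa [area_of_unit hGv, mul_one]
  obtain ⟨C, hC, hC1, hC2⟩ := interp hα hn hF hG h1 hβ h2'
  obtain ⟨C', hC', hv, hC3⟩ := exists_unit hC α
  refine ⟨C', hC', hv, ?_⟩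
  rw [← hC3, forced_iff hα hC' hv] at hC1 hC2
  omega

/-- **Intermediate values of the function of Erdős.** There is a set `E` of exceptional
parameters, which has only finitely many elements above every positive bound (so it is countable)
and on which `m` is injective, such that for every `α` in `(0,1)`: the least value `m α` and the
largest value `M α` exist, every integer `k` with `m α ≤ k ≤ M α` and `k ≠ m α + 1` is the
value at a convex figure of area `1`, and so is `k = m α + 1` if `m α + 1 ≤ M α` and `α` is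
outside `E`. -/
theorem result :
    ∃ E : Set ℝ, (∀ ε : ℝ, 0 < ε → (E ∩ Ici ε).Finite) ∧ InjOn m E ∧
      ∀ α : ℝ, 0 < α → α < 1 →
        IsLeast (values α) (m α) ∧ IsGreatest (values α) (M α) ∧
        ∀ k : ℕ, m α ≤ k → k ≤ M α → (k ≠ m α + 1 ∨ α ∉ E) →
          ∃ F : Set Plane, IsFigure F ∧ volume F = 1 ∧ S α F = k := by
  set E : Set ℝ := {α | 0 < α ∧ α < 1 ∧ m α + 1 ≤ M α ∧ m α + 1 ∉ values α} with hE
  have hinj : InjOn m E := by
    have key : ∀ α₁ ∈ E, ∀ α₂ ∈ E, m α₁ = m α₂ → ¬ α₁ < α₂ := by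
      rintro α₁ ⟨h10, h11, h12, h13⟩ α₂ ⟨h20, h21, h22, h23⟩ hm hlt
      obtain ⟨F, hF, hFv, hFS⟩ := (isLeast_m α₁).1
      obtain ⟨G, hG, hGv, hGS⟩ := (isGreatest_M h20).1
      have h3 : Forced (m α₁) F α₁ := (forced_iff h10 hF hFv _).2 hFS.le
      have h4 := Forced.three_le hF h3
      apply h23
      rw [← hm]
      refine attained (β := α₁) h20 (by omega) hF hG hGv (h3.mono_n (Nat.le_succ _)) ?_ ?_
      · rwa [area_of_unit hFv, mul_one]
      · rw [forced_iff h20 hG hGv, hGS]
        omega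
    intro α₁ h1 α₂ h2 hm
    rcases lt_trichotomy α₁ α₂ with h | h | h
    · exact absurd h (key α₁ h1 α₂ h2 hm)
    · exact h
    · exact absurd h (key α₂ h2 α₁ h1 hm.symm)
  refine ⟨E, ?_, hinj, ?_⟩
  · intro ε hε
    obtain ⟨N, hN⟩ := exists_N hε
    apply Set.Finite.of_injOn (f := m) (t := Iic (3 * N)) _ (hinj.mono inter_subset_left)
      (finite_Iic _)
    rintro α ⟨⟨hα, _⟩, hαε⟩
    have h1 : 1 < N * α := hN.trans_le (mul_le_mul_of_nonneg_left hαε (Nat.cast_nonneg _))
    exact values_le h1 _ (isLeast_m α).1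
  · intro α h0 h1
    refine ⟨isLeast_m α, isGreatest_M h0, ?_⟩
    intro k hk1 hk2 hk3
    change k ∈ values α
    obtain ⟨F, hF, hFv, hFS⟩ := (isLeast_m α).1
    obtain ⟨G, hG, hGv, hGS⟩ := (isGreatest_M h0).1
    rcases eq_or_lt_of_le hk1 with h | h
    · rw [← h]; exact (isLeast_m α).1
    rcases Nat.eq_or_lt_of_le (Nat.succ_le_of_lt h) with h' | h'
    · -- the case `k = m α + 1`
      have h'' : k = m α + 1 := h'.symm
      rcases hk3 with hk3 | hk3
      · exact absurd h'' hk3
      · by_contra hcon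
        rw [h''] at hcon hk2
        exact hk3 ⟨h0, h1, hk2, hcon⟩
    · -- the case `m α + 2 ≤ k`
      have h3 : Forced (m α) F α := (forced_iff h0 hF hFv _).2 hFS.le
      have h4 := Forced.three_le hF h3
      obtain ⟨F', hF', hlt, hF'2⟩ := thin hF h0 h3
      obtain ⟨n, rfl⟩ : ∃ n, k = n + 1 := ⟨k - 1, by omega⟩
      refine attained (β := α) h0 (by omega) hF' hG hGv (hF'2.mono_n (by omega)) ?_ ?_
      · rw [area_of_unit hFv] at hlt
        calc α = α * 1 := (mul_one α).symm
          _ < α * area F' := mul_lt_mul_of_pos_left hlt h0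
      · rw [forced_iff h0 hG hGv, hGS]
        omega

end Pool.Agent.Results.MP_78c590_co.IntermediateValues
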