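import Pool.Agent.helper47.SAlphaN

set_option autoImplicit false

/-!
# A missing value of the function of Erdős forces polygonal minimisers

Let `m α` and `M α` be the least and the greatest value of the function `S α` of Erdős on the
convex figures of area `1`. Suppose that some `k` with `m α ≤ k ≤ M α` is not a value. Then
`k = m α + 1`, and every convex figure `F` of area `1` with `S α F = m α` is a polygon with at
least four vertices. Moreover each half of each side of `F` contains two points of a set of `k`
points of `F` all of whose triangles have area at least `α`.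

The reason: a figure of larger area than `F` has `k` points all of whose triangles have area more
than `α`, and at least two of them are outside of `F`. So `F` cannot be enlarged within a small
disc, and not by rotating a side slightly about a point near its midpoint unless the added thin
triangle receives two points. In a triangle, removing one of these two points and applying an
affine map that fixes the lines of the other two sides gives a contradiction.
-/

open Set MeasureTheory Pool.Agent.helper47.SAlpha

namespace Pool.Agent.Results.MP_78c590_co.PolygonalMinimizers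

/-- The value of the function of Erdős: the least positive integer `n` such that among any `n`
points of `F` some three are the vertices of a triangle of area at most `α`. -/
noncomputable def S (α : ℝ) (F : Set Plane) : ℕ := sInf {n : ℕ | 0 < n ∧ Forced n F α}

/-- The set of all the values `S α F`, where `F` runs over the convex figures of area `1`. -/
def values (α : ℝ) : Set ℕ := {k | ∃ F : Set Plane, IsFigure F ∧ volume F = 1 ∧ S α F = k}

/-- The smallest value. -/
noncomputable def m (α : ℝ) : ℕ := sInf (values α)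

/-- The largest value. -/
noncomputable def M (α : ℝ) : ℕ := sSup (values α)

lemma area_of_unit {F : Set Plane} (h : volume F = 1) : area F = 1 := by
  simp [area, h]

/-- Normalisation of the area. -/
lemma exists_unit {F : Set Plane} (h : IsFigure F) (α : ℝ) :
    ∃ F' : Set Plane, IsFigure F' ∧ volume F' = 1 ∧
      ∀ n, (Forced n F' α ↔ Forced n F (α * area F)) := by
  have hpos := area_pos h
  set r := (Real.sqrt (area F))⁻¹ with hr
  have hr0 : r ≠ 0 := inv_ne_zero (Real.sqrt_pos.2 hpos).ne'
  have hr2 : r ^ 2 = (area F)⁻¹ := by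
    rw [hr, inv_pow, Real.sq_sqrt hpos.le]
  have hfig := h.sim 0 hr0
  refine ⟨sim 0 r '' F, hfig, ?_, ?_⟩
  · have h1 : area (sim 0 r '' F) = 1 := by
      rw [area_sim, hr2, inv_mul_cancel₀ hpos.ne']
    have h2 := hfig.compact.measure_lt_top (μ := volume)
    rw [← ENNReal.ofReal_toReal h2.ne]
    change ENNReal.ofReal (area (sim 0 r '' F)) = 1
    rw [h1, ENNReal.ofReal_one]
  · intro n
    rw [← forced_sim_iff (n := n) (F := F) (β := α * area F) 0 hr0]
    have h3 : r ^ 2 * (α * area F) = α := by
      rw [hr2]; field_simp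
    rw [h3]

lemma exists_figure : ∃ F : Set Plane, IsFigure F := by
  refine ⟨Metric.closedBall 0 1, convex_closedBall 0 1, isCompact_closedBall 0 1, ?_⟩
  rw [interior_closedBall _ one_ne_zero]
  exact ⟨0, by simp⟩

lemma Forced.pos {n : ℕ} {F : Set Plane} {α : ℝ} (h : Forced n F α) : 0 < n := by
  rcases Nat.eq_zero_or_pos n with h0 | h0
  · subst h0
    obtain ⟨a, ha, _⟩ := h ∅ (by simp) rfl
    simp at ha
  · exact h0

lemma infinite_of_figure {F : Set Plane} (h : IsFigure F) : F.Infinite :=
  (infinite_of_mem_nhds _ (isOpen_interior.mem_nhds h.interior_nonempty.some_mem)).mono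
    interior_subset

lemma Forced.three_le {n : ℕ} {F : Set Plane} {α : ℝ} (hF : IsFigure F) (h : Forced n F α) :
    3 ≤ n := by
  obtain ⟨t, htF, htc⟩ := (infinite_of_figure hF).exists_subset_card_eq n
  obtain ⟨a, ha, b, hb, c, hc, hab, hac, hbc, _⟩ := h t htF htc
  rw [← htc]
  exact Finset.two_lt_card.2 ⟨a, ha, b, hb, c, hc, hab, hac, hbc⟩

lemma exists_N {α : ℝ} (hα : 0 < α) : ∃ N : ℕ, 1 < N * α := by
  obtain ⟨N, hN⟩ := exists_nat_gt (1 / α)
  exact ⟨N, by rwa [div_lt_iff₀ hα] at hN⟩

lemma S_mem {α : ℝ} (hα : 0 < α) {F : Set Plane} (hF : IsFigure F) (hv : volume F = 1) :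
    Forced (S α F) F α := by
  obtain ⟨N, hN⟩ := exists_N hα
  have h := forced_of_large hF hv hN
  exact (Nat.sInf_mem (s := {n : ℕ | 0 < n ∧ Forced n F α}) ⟨3 * N, Forced.pos h, h⟩).2

lemma S_le {α : ℝ} {F : Set Plane} {n : ℕ} (h : Forced n F α) : S α F ≤ n :=
  Nat.sInf_le ⟨Forced.pos h, h⟩

lemma forced_iff {α : ℝ} (hα : 0 < α) {F : Set Plane} (hF : IsFigure F) (hv : volume F = 1)
    (n : ℕ) : Forced n F α ↔ S α F ≤ n :=
  ⟨S_le, fun h => (S_mem hα hF hv).mono_n h⟩

lemma values_nonempty (α : ℝ) : (values α).Nonempty := by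
  obtain ⟨F, hF⟩ := exists_figure
  obtain ⟨F', hF', hv, _⟩ := exists_unit hF α
  exact ⟨S α F', F', hF', hv, rfl⟩

lemma values_le {α : ℝ} {N : ℕ} (hN : 1 < N * α) : ∀ k ∈ values α, k ≤ 3 * N := by
  rintro k ⟨F, hF, hv, rfl⟩
  exact S_le (forced_of_large hF hv hN)

lemma values_bddAbove {α : ℝ} (hα : 0 < α) : BddAbove (values α) := by
  obtain ⟨N, hN⟩ := exists_N hα
  exact ⟨3 * N, values_le hN⟩

lemma isLeast_m (α : ℝ) : IsLeast (values α) (m α) :=
  ⟨Nat.sInf_mem (values_nonempty α), fun _ h => Nat.sInf_le h⟩

lemma isGreatest_M {α : ℝ} (hα : 0 < α) : IsGreatest (values α) (M α) :=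
  ⟨Nat.sSup_mem (values_nonempty α) (values_bddAbove hα),
    fun _ h => le_csSup (values_bddAbove hα) h⟩

/-- The interpolation theorem for figures of area one. -/
lemma attained {α β : ℝ} (hα : 0 < α) {n : ℕ} (hn : 2 ≤ n) {F G : Set Plane}
    (hF : IsFigure F) (hG : IsFigure G) (hGv : volume G = 1)
    (h1 : Forced (n + 1) F β) (hβ : β < α * area F) (h2 : ¬ Forced n G α) :
    n + 1 ∈ values α := by
  have h2' : ¬ Forced n G (α * area G) := by rwa [area_of_unit hGv, mul_one]
  obtain ⟨C, hC, hC1, hC2⟩ := interp hα hn hF hG h1 hβ h2'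
  obtain ⟨C', hC', hv, hC3⟩ := exists_unit hC α
  refine ⟨C', hC', hv, ?_⟩
  rw [← hC3, forced_iff hα hC' hv] at hC1 hC2
  omega

/-- **A missing value forces polygonal minimisers.** Suppose that the integer `k` with
`m α ≤ k ≤ M α` is not a value of `S α` on the convex figures of area `1`. Then `k = m α + 1`,
and every convex figure `F` of area `1` with `S α F = m α` is the convex hull of a finite set,
but not the convex hull of three points. Moreover, for each side of `F` (a segment `[x, b]` in the boundary of `F` whose end points are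
extreme points of `F`) the half of the side at `x` contains two points of a set of `k` points of
`F` all of whose triangles have area at least `α`. -/
theorem result (α : ℝ) (h0 : 0 < α) (h1 : α < 1) (k : ℕ) (hk : m α ≤ k) (hk' : k ≤ M α)
    (hno : ¬ ∃ F : Set Plane, IsFigure F ∧ volume F = 1 ∧ S α F = k) :
    k = m α + 1 ∧
      ∀ F : Set Plane, IsFigure F → volume F = 1 → S α F = m α →
        (∃ s : Finset Plane, F = convexHull ℝ (s : Set Plane)) ∧
        (¬ ∃ a b c : Plane, F = convexHull ℝ {a, b, c}) ∧
        ∀ x ∈ F.extremePoints ℝ, ∀ b ∈ F.extremePoints ℝ, x ≠ b →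
          segment ℝ x b ⊆ frontier F →
          ∃ t : Finset Plane, (t : Set Plane) ⊆ F ∧ t.card = k ∧
            (∀ p ∈ t, ∀ q ∈ t, ∀ r ∈ t, p ≠ q → p ≠ r → q ≠ r → α ≤ triArea p q r) ∧
            ∃ p ∈ t, ∃ q ∈ t, p ≠ q ∧ p ∈ segment ℝ x (midpoint ℝ x b) ∧
              q ∈ segment ℝ x (midpoint ℝ x b) := by
  have hno' : k ∉ values α := hno
  obtain ⟨F₀, hF₀, hF₀v, hF₀S⟩ := (isLeast_m α).1
  obtain ⟨G, hG, hGv, hGS⟩ := (isGreatest_M h0).1
  have h3 : Forced (m α) F₀ α := (forced_iff h0 hF₀ hF₀v _).2 hF₀S.le
  have h4 := Forced.three_le hF₀ h3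
  have hkm : k = m α + 1 := by
    rcases eq_or_lt_of_le hk with h | h
    · exact absurd (h ▸ (isLeast_m α).1) hno'
    rcases Nat.eq_or_lt_of_le (Nat.succ_le_of_lt h) with h' | h'
    · exact h'.symm
    · exfalso
      obtain ⟨F', hF', hlt, hF'2⟩ := thin hF₀ h0 h3
      obtain ⟨n, rfl⟩ : ∃ n, k = n + 1 := ⟨k - 1, by omega⟩
      apply hno'
      refine attained (β := α) h0 (by omega) hF' hG hGv (hF'2.mono_n (by omega)) ?_ ?_
      · rw [area_of_unit hF₀v] at hlt
        calc α = α * 1 := (mul_one α).symm
          _ < α * area F' := mul_lt_mul_of_pos_left hlt h0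
      · rw [forced_iff h0 hG hGv, hGS]
        omega
  refine ⟨hkm, fun F hF hFv hFS => ?_⟩
  have hFm : Forced (m α) F α := (forced_iff h0 hF hFv _).2 hFS.le
  have hmin : ∀ F' : Set Plane, IsFigure F' → area F < area F' →
      ¬ Forced (m α + 1) F' α := by
    intro F' hF' hlt hf
    apply hno'
    rw [hkm]
    refine attained (β := α) h0 (by omega) hF' hG hGv hf ?_ ?_
    · rw [area_of_unit hFv] at hlt
      calc α = α * 1 := (mul_one α).symm
        _ < α * area F' := mul_lt_mul_of_pos_left hlt h0
    · rw [forced_iff h0 hG hGv, hGS]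
      omega
  refine ⟨polygon hF h0 (stuck_of hF (by omega) hFm hmin), ?_, ?_⟩
  · rintro ⟨a, b, c, hFe⟩
    exact not_triangle hF h0 (by omega) hFm (rich_of hFm hmin) hFe
  intro x hx b hb hne hs
  rw [hkm]
  exact half_side hF h0 (by omega) (rich_of hFm hmin) hx hb hne hs

end Pool.Agent.Results.MP_78c590_co.PolygonalMinimizers
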