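import Pool.Agent.helper47.SAlphaF

set_option autoImplicit false

/-!
# The spread of the function of Erdős and the shape dependence of Heilbronn numbers

For a convex figure `F` of area `1` let `H n F` be its `n`-th Heilbronn number: the least `β` such
that among any `n` points of `F` some three are the vertices of a triangle of area at most `β`.
Let `m α` and `M α` be the least and the greatest value of the function `S α` of Erdős. For all
figures `F n`, `G n` of area `1` and all `N ≥ 3` there is an `α` in `[1 / (128 N²), 1)` with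
`(M α - m α) (2 log N + log 128) ≥ ∑_{n=3}^N |log (H n (F n) / H n (G n))|`.
So the differences `M α - m α` are unbounded if the Heilbronn numbers depend on the shape of the
figure (by factors `1 + ω(n) / n` with `ω(n) → ∞`, say); if they are bounded, then all convex
figures have asymptotically the same Heilbronn numbers, for almost all `n`.
-/

open Set MeasureTheory Pool.Agent.helper47.SAlpha

namespace Pool.Agent.Results.MP_78c590_co.ShapeDependence

/-- The value of the function of Erdős: the least positive integer `n` such that among any `n`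
points of `F` some three are the vertices of a triangle of area at most `α`. -/
noncomputable def S (α : ℝ) (F : Set Plane) : ℕ := sInf {n : ℕ | 0 < n ∧ Forced n F α}

/-- The set of all the values `S α F`, where `F` runs over the convex figures of area `1`. -/
def values (α : ℝ) : Set ℕ := {k | ∃ F : Set Plane, IsFigure F ∧ volume F = 1 ∧ S α F = k}

/-- The smallest value. -/
noncomputable def m (α : ℝ) : ℕ := sInf (values α)

/-- The largest value. -/
noncomputable def M (α : ℝ) : ℕ := sSup (values α)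

/-- The `n`-th Heilbronn number of `F`: the infimum of the `β ≥ 0` such that among any `n` points
of `F` some three are the vertices of a triangle of area at most `β`. -/
noncomputable def H (n : ℕ) (F : Set Plane) : ℝ := sInf {β : ℝ | 0 ≤ β ∧ Forced n F β}

/-! ### Basic facts -/

lemma Forced.pos {n : ℕ} {F : Set Plane} {α : ℝ} (h : Forced n F α) : 0 < n := by
  rcases Nat.eq_zero_or_pos n with h0 | h0
  · subst h0
    obtain ⟨a, ha, _⟩ := h ∅ (by simp) rfl
    simp at ha
  · exact h0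

lemma exists_N {α : ℝ} (hα : 0 < α) : ∃ N : ℕ, 1 < N * α := by
  obtain ⟨N, hN⟩ := exists_nat_gt (1 / α)
  exact ⟨N, by rwa [div_lt_iff₀ hα] at hN⟩

lemma S_mem {α : ℝ} (hα : 0 < α) {F : Set Plane} (hF : IsFigure F) (hv : volume F = 1) :
    Forced (S α F) F α := by
  obtain ⟨N, hN⟩ := exists_N hα
  have h := forced_of_large hF hv hN
  exact (Nat.sInf_mem (s := {n : ℕ | 0 < n ∧ Forced n F α}) ⟨3 * N, Forced.pos h, h⟩).2

lemma S_le {α : ℝ} {F : Set Plane} {n : ℕ} (h : Forced n F α) : S α F ≤ n :=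
  Nat.sInf_le ⟨Forced.pos h, h⟩

lemma values_le {α : ℝ} {N : ℕ} (hN : 1 < N * α) : ∀ k ∈ values α, k ≤ 3 * N := by
  rintro k ⟨F, hF, hv, rfl⟩
  exact S_le (forced_of_large hF hv hN)

lemma M_le {α : ℝ} {N : ℕ} (hN : 1 < N * α) : M α ≤ 3 * N :=
  csSup_le' (fun k hk => values_le hN k hk)

lemma m_le {α : ℝ} {F : Set Plane} (hF : IsFigure F) (hv : volume F = 1) : m α ≤ S α F :=
  Nat.sInf_le ⟨F, hF, hv, rfl⟩

lemma le_M {α : ℝ} (hα : 0 < α) {F : Set Plane} (hF : IsFigure F) (hv : volume F = 1) :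
    S α F ≤ M α := by
  obtain ⟨N, hN⟩ := exists_N hα
  exact le_csSup ⟨3 * N, values_le hN⟩ ⟨F, hF, hv, rfl⟩

lemma forced_one {F : Set Plane} (hF : IsFigure F) (hv : volume F = 1) {n : ℕ} (hn : 3 ≤ n) :
    Forced n F 1 := by
  intro s hs hc
  obtain ⟨a, ha, b, hb, c, hc', hab, hac, hbc⟩ := Finset.two_lt_card.1 (show 2 < s.card by omega)
  refine ⟨a, ha, b, hb, c, hc', hab, hac, hbc, ?_⟩
  have h1 := volume_triangle a b c
  have h2 : convexHull ℝ ({a, b, c} : Set Plane) ⊆ F := by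
    apply convexHull_min _ hF.convex
    rintro x (rfl | rfl | rfl)
    · exact hs ha
    · exact hs hb
    · exact hs hc'
  have h3 := h1.trans (measure_mono h2)
  rw [hv, ENNReal.ofReal_le_one] at h3
  exact h3

lemma H_le {n : ℕ} {F : Set Plane} {β : ℝ} (h0 : 0 ≤ β) (h : Forced n F β) : H n F ≤ β :=
  csInf_le ⟨0, fun _ hx => hx.1⟩ ⟨h0, h⟩

lemma H_le_one {F : Set Plane} (hF : IsFigure F) (hv : volume F = 1) {n : ℕ} (hn : 3 ≤ n) :
    H n F ≤ 1 := H_le zero_le_one (forced_one hF hv hn)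

lemma le_H {F : Set Plane} (hF : IsFigure F) (hv : volume F = 1) {n : ℕ} (hn : 3 ≤ n) :
    1 / (128 * (n : ℝ) ^ 2) ≤ H n F := by
  refine le_csInf (s := {β : ℝ | 0 ≤ β ∧ Forced n F β}) ⟨1, zero_le_one, forced_one hF hv hn⟩ ?_
  rintro β ⟨_, hβ⟩
  by_contra h
  push Not at h
  exact not_forced_of_lt hF hv (by omega) h hβ

lemma H_pos {F : Set Plane} (hF : IsFigure F) (hv : volume F = 1) {n : ℕ} (hn : 3 ≤ n) :
    0 < H n F :=
  lt_of_lt_of_le (by positivity) (le_H hF hv hn)

lemma forced_of_H_lt {F : Set Plane} (hF : IsFigure F) (hv : volume F = 1) {n : ℕ} (hn : 3 ≤ n)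
    {β : ℝ} (h : H n F < β) : Forced n F β := by
  obtain ⟨β', ⟨_, h1⟩, h2⟩ := exists_lt_of_csInf_lt
    (s := {β : ℝ | 0 ≤ β ∧ Forced n F β}) ⟨1, zero_le_one, forced_one hF hv hn⟩ h
  exact h1.mono_β h2.le

/-! ### The inequality between the Heilbronn numbers -/

lemma H_add_le {N K : ℕ} (hK : ∀ α : ℝ, 1 / (128 * (N : ℝ) ^ 2) ≤ α → α < 1 → M α ≤ m α + K)
    {F G : Set Plane} (hF : IsFigure F) (hFv : volume F = 1) (hG : IsFigure G)
    (hGv : volume G = 1) {n : ℕ} (hn : 3 ≤ n) (hnN : n ≤ N) : H (n + K) F ≤ H n G := by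
  rcases le_or_gt 1 (H n G) with h1 | h1
  · exact (H_le_one hF hFv (by omega)).trans h1
  · have key : ∀ α : ℝ, H n G < α → α < 1 → H (n + K) F ≤ α := by
      intro α h2 h3
      have hα : 0 < α := (H_pos hG hGv hn).trans h2
      have h4 : 1 / (128 * (N : ℝ) ^ 2) ≤ α := by
        refine le_trans ?_ ((le_H hG hGv hn).trans h2.le)
        have h5 : (0 : ℝ) < n := by exact_mod_cast (show 0 < n by omega)
        have h6 : (n : ℝ) ≤ N := by exact_mod_cast hnN
        gcongr
      have h7 : m α ≤ n := (m_le hG hGv).trans (S_le (forced_of_H_lt hG hGv hn h2))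
      have h8 : S α F ≤ n + K := (le_M hα hF hFv).trans ((hK α h4 h3).trans (by omega))
      exact H_le hα.le ((S_mem hα hF hFv).mono_n h8)
    by_contra h
    push Not at h
    obtain ⟨α, h2, h3⟩ := exists_between (lt_min h h1)
    have h4 := key α h2 (h3.trans_le (min_le_right _ _))
    exact absurd h4 (not_le.2 (h3.trans_le (min_le_left _ _)))

/-- The telescoping sum. -/
lemma telescope {N K : ℕ} {B : ℝ} (hB : 0 ≤ B) (u v : ℕ → ℝ) (hu : ∀ n, 3 ≤ n → u n ≤ 0)
    (hv : ∀ n, 3 ≤ n → n ≤ N → -B ≤ v n) (huv : ∀ n, 3 ≤ n → n ≤ N → u (n + K) ≤ v n) :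
    ∑ n ∈ Finset.Icc 3 N, (u n - v n) ≤ K * B := by
  rw [Finset.sum_sub_distrib]
  have h1 : ∑ n ∈ Finset.Icc 3 N, u n ≤ ∑ n ∈ Finset.Icc (3 + K) N, u n := by
    have hsub : Finset.Icc (3 + K) N ⊆ Finset.Icc 3 N :=
      Finset.Icc_subset_Icc (by omega) le_rfl
    rw [← Finset.sum_sdiff hsub]
    have : ∑ n ∈ Finset.Icc 3 N \ Finset.Icc (3 + K) N, u n ≤ 0 := by
      apply Finset.sum_nonpos
      intro n hn
      exact hu n (Finset.mem_Icc.1 (Finset.mem_sdiff.1 hn).1).1
    linarith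
  have h2 : ∑ n ∈ Finset.Icc (3 + K) N, u n ≤ ∑ n ∈ Finset.Icc 3 (N - K), v n := by
    rcases le_or_gt (3 + K) N with h | h
    · have h3 : Finset.Icc (3 + K) N = (Finset.Icc 3 (N - K)).image (fun n => n + K) := by
        ext n
        simp only [Finset.mem_Icc, Finset.mem_image]
        constructor
        · rintro ⟨h4, h5⟩
          exact ⟨n - K, ⟨by omega, by omega⟩, by omega⟩
        · rintro ⟨k, ⟨h4, h5⟩, rfl⟩
          omega
      rw [h3, Finset.sum_image (by intro a _ b _ hab; exact Nat.add_right_cancel hab)]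
      apply Finset.sum_le_sum
      intro n hn
      rw [Finset.mem_Icc] at hn
      exact huv n hn.1 (by omega)
    · rw [Finset.Icc_eq_empty (by omega), Finset.Icc_eq_empty (by omega)]
      simp
  have h3 : ∑ n ∈ Finset.Icc 3 (N - K), v n - K * B ≤ ∑ n ∈ Finset.Icc 3 N, v n := by
    have hsub : Finset.Icc 3 (N - K) ⊆ Finset.Icc 3 N :=
      Finset.Icc_subset_Icc le_rfl (by omega)
    rw [← Finset.sum_sdiff hsub]
    have hcard : (Finset.Icc 3 N \ Finset.Icc 3 (N - K)).card ≤ K := by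
      rw [Finset.card_sdiff_of_subset hsub, Nat.card_Icc, Nat.card_Icc]
      omega
    have h4 : (Finset.Icc 3 N \ Finset.Icc 3 (N - K)).card • (-B) ≤
        ∑ n ∈ Finset.Icc 3 N \ Finset.Icc 3 (N - K), v n := by
      apply Finset.card_nsmul_le_sum
      intro n hn
      have := Finset.mem_Icc.1 (Finset.mem_sdiff.1 hn).1
      exact hv n this.1 this.2
    rw [nsmul_eq_mul] at h4
    have h5 : ((Finset.Icc 3 N \ Finset.Icc 3 (N - K)).card : ℝ) * B ≤ K * B := by
      gcongr
    linarith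
  linarith

/-- **The spread and the shape dependence of Heilbronn numbers.** For all convex figures `F n` and
`G n` of area `1` and all `N ≥ 3` there is an `α` in `[1 / (128 N²), 1)` with
`∑_{n=3}^N |log (H n (F n) / H n (G n))| ≤ (M α - m α) (2 log N + log 128)`. Here `m α` and `M α`
are the least and the greatest value of `S α`, and the Heilbronn numbers `H n F` lie between
`1 / (128 n²)` and `1`. -/
theorem result (N : ℕ) (hN : 3 ≤ N) (F G : ℕ → Set Plane)
    (hF : ∀ n, IsFigure (F n) ∧ volume (F n) = 1)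
    (hG : ∀ n, IsFigure (G n) ∧ volume (G n) = 1) :
    (∀ n : ℕ, 3 ≤ n → 1 / (128 * (n : ℝ) ^ 2) ≤ H n (F n) ∧ H n (F n) ≤ 1 ∧
      1 / (128 * (n : ℝ) ^ 2) ≤ H n (G n) ∧ H n (G n) ≤ 1) ∧
    ∃ α : ℝ, 1 / (128 * (N : ℝ) ^ 2) ≤ α ∧ α < 1 ∧
      IsLeast (values α) (m α) ∧ IsGreatest (values α) (M α) ∧
      ∑ n ∈ Finset.Icc 3 N, |Real.log (H n (F n) / H n (G n))| ≤
        ((M α : ℝ) - m α) * (2 * Real.log N + Real.log 128) := by
  refine ⟨fun n hn => ⟨le_H (hF n).1 (hF n).2 hn, H_le_one (hF n).1 (hF n).2 hn,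
    le_H (hG n).1 (hG n).2 hn, H_le_one (hG n).1 (hG n).2 hn⟩, ?_⟩
  have hN' : (0 : ℝ) < N := by exact_mod_cast (show 0 < N by omega)
  set α₀ : ℝ := 1 / (128 * (N : ℝ) ^ 2) with hα₀
  have hα₀pos : 0 < α₀ := by positivity
  have hα₀lt : α₀ < 1 := by
    rw [hα₀, div_lt_one (by positivity)]
    have h1 : (1 : ℝ) ≤ N := by exact_mod_cast (show 1 ≤ N by omega)
    have h2 : (1 : ℝ) ≤ (N : ℝ) ^ 2 := one_le_pow₀ h1
    linarith
  obtain ⟨L, hL⟩ := exists_N hα₀pos
  -- the largest spread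
  set A : Set ℕ := {k | ∃ α : ℝ, α₀ ≤ α ∧ α < 1 ∧ M α - m α = k} with hA
  have hAne : A.Nonempty := ⟨_, α₀, le_rfl, hα₀lt, rfl⟩
  have hAb : BddAbove A := by
    refine ⟨3 * L, ?_⟩
    rintro k ⟨α, h1, _, rfl⟩
    have h2 : 1 < L * α := hL.trans_le (mul_le_mul_of_nonneg_left h1 (Nat.cast_nonneg _))
    exact (Nat.sub_le _ _).trans (M_le h2)
  obtain ⟨α, hα1, hα2, hαK⟩ := Nat.sSup_mem hAne hAb
  have hαpos : 0 < α := hα₀pos.trans_le hα1
  have hne : (values α).Nonempty := ⟨_, F 0, (hF 0).1, (hF 0).2, rfl⟩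
  obtain ⟨L', hL'⟩ := exists_N hαpos
  have hleast : IsLeast (values α) (m α) := ⟨Nat.sInf_mem hne, fun _ h => Nat.sInf_le h⟩
  have hgreatest : IsGreatest (values α) (M α) :=
    ⟨Nat.sSup_mem hne ⟨3 * L', values_le hL'⟩, fun _ h => le_csSup ⟨3 * L', values_le hL'⟩ h⟩
  refine ⟨α, hα1, hα2, hleast, hgreatest, ?_⟩
  have hmM : m α ≤ M α := hleast.2 hgreatest.1
  set K : ℕ := M α - m α with hKdef
  have hK : ∀ β : ℝ, α₀ ≤ β → β < 1 → M β ≤ m β + K := by
    intro β h1 h2
    have h3 : M β - m β ≤ K := by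
      rw [hαK]
      exact le_csSup hAb ⟨β, h1, h2, rfl⟩
    omega
  have hKr : ((M α : ℝ) - m α) = K := by
    rw [hKdef, Nat.cast_sub hmM]
  rw [hKr]
  -- order the two figures
  classical
  set F' : ℕ → Set Plane := fun n => if H n (G n) ≤ H n (F n) then F n else G n with hF'
  set G' : ℕ → Set Plane := fun n => if H n (G n) ≤ H n (F n) then G n else F n with hG'
  have hF'1 : ∀ n, IsFigure (F' n) ∧ volume (F' n) = 1 := by
    intro n
    simp only [hF']
    split_ifs
    · exact hF n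
    · exact hG n
  have hG'1 : ∀ n, IsFigure (G' n) ∧ volume (G' n) = 1 := by
    intro n
    simp only [hG']
    split_ifs
    · exact hG n
    · exact hF n
  have habs : ∀ n ∈ Finset.Icc 3 N, |Real.log (H n (F n) / H n (G n))| =
      Real.log (H n (F' n)) - Real.log (H n (G' n)) := by
    intro n hn
    have hn3 := (Finset.mem_Icc.1 hn).1
    have h1 := H_pos (hF n).1 (hF n).2 hn3
    have h2 := H_pos (hG n).1 (hG n).2 hn3
    rw [Real.log_div h1.ne' h2.ne']
    simp only [hF', hG']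
    split_ifs with h
    · exact abs_of_nonneg (sub_nonneg.2 (Real.log_le_log h2 h))
    · push Not at h
      rw [abs_of_nonpos (sub_nonpos.2 (Real.log_le_log h1 h.le))]
      ring
  rw [Finset.sum_congr rfl habs]
  refine telescope (B := 2 * Real.log N + Real.log 128) ?_
    (fun n => Real.log (H n (F' n))) (fun n => Real.log (H n (G' n))) ?_ ?_ ?_
  · have h1 : 0 ≤ Real.log N := Real.log_nonneg (by exact_mod_cast (show 1 ≤ N by omega))
    have h2 : 0 ≤ Real.log 128 := Real.log_nonneg (by norm_num)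
    linarith
  · intro n hn
    exact Real.log_nonpos (H_pos (hF'1 n).1 (hF'1 n).2 hn).le (H_le_one (hF'1 n).1 (hF'1 n).2 hn)
  · intro n hn hnN
    have hn0 : (0 : ℝ) < n := by exact_mod_cast (show 0 < n by omega)
    have h1 : Real.log (1 / (128 * (N : ℝ) ^ 2)) ≤ Real.log (H n (G' n)) := by
      apply Real.log_le_log (by positivity)
      refine le_trans ?_ (le_H (hG'1 n).1 (hG'1 n).2 hn)
      have h6 : (n : ℝ) ≤ N := by exact_mod_cast hnN
      gcongr
    refine le_trans (le_of_eq ?_) h1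
    rw [one_div, Real.log_inv, Real.log_mul (by norm_num) (by positivity), Real.log_pow]
    push_cast
    ring
  · intro n hn hnN
    refine Real.log_le_log (H_pos (hF'1 _).1 (hF'1 _).2 (by omega)) ?_
    exact H_add_le hK (hF'1 _).1 (hF'1 _).2 (hG'1 n).1 (hG'1 n).2 hn hnN

end Pool.Agent.Results.MP_78c590_co.ShapeDependence
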